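import Pool.Agent.Helper94.UP.Sheet

open scoped ContDiff
open Set Filter Topology

namespace Pool.Agent.Helper94.UP

theorem stA2.{u} (h1 : ST_SM) : ST_A2.{u} := by
  intro k X _ _ D hk hD hA c r hr
  obtain ⟨B, hB, hS⟩ := h1
  have hf0 : ∀ x : X, 0 ≤ min 1 (‖x - c‖ / r) ∧ min 1 (‖x - c‖ / r) ≤ 1 := fun x =>
    ⟨le_min zero_le_one (by positivity), min_le_left _ _⟩
  have hfl : ∀ x y : X, |min 1 (‖x - c‖ / r) - min 1 (‖y - c‖ / r)| ≤ 1 / r * ‖x - y‖ := by
    intro x y
    refine (abs_min_sub_min_le_max _ _ _ _).trans (max_le ?_ ?_)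
    · rw [sub_self, abs_zero]; positivity
    · rw [← sub_div, abs_div, abs_of_pos hr, div_eq_inv_mul, one_div]
      refine mul_le_mul_of_nonneg_left ?_ (by positivity)
      have h2 := abs_norm_sub_norm_le (x - c) (y - c)
      rwa [sub_sub_sub_cancel_right] at h2
  obtain ⟨h, hc, hl, he⟩ := hA _ (1 / r) (by positivity) hf0 hfl (1 / 32) (by norm_num)
  refine ⟨fun x => Real.smoothTransition ((23 / 32 - h x) * (32 / 6)),
    B * (32 / 6 * (D * (1 / r))), by positivity, ?_, ?_, ?_, ?_, ?_⟩
  · have h3 : ContDiff ℝ (∞ : WithTop ℕ∞) Real.smoothTransition := Real.smoothTransition.contDiff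
    exact (h3.of_le hk).comp ((contDiff_const.sub hc).mul contDiff_const)
  · intro x
    exact ⟨Real.smoothTransition.nonneg _, Real.smoothTransition.le_one _⟩
  · intro x y
    refine (hS _ _).trans ?_
    rw [mul_assoc]
    refine mul_le_mul_of_nonneg_left ?_ hB
    have h4 : (23 / 32 - h x) * (32 / 6) - (23 / 32 - h y) * (32 / 6) = 32 / 6 * (h y - h x) := by
      ring
    rw [h4, abs_mul, abs_of_pos (by norm_num : (0:ℝ) < 32 / 6), abs_sub_comm, mul_assoc]
    exact mul_le_mul_of_nonneg_left (hl x y) (by norm_num)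
  · intro x hx
    refine Real.smoothTransition.one_of_one_le ?_
    have h5 := (abs_le.1 (he x)).2
    have h6 : min 1 (‖x - c‖ / r) ≤ 1 / 2 := by
      refine (min_le_right _ _).trans ?_
      rw [div_le_iff₀ hr]
      linarith
    linarith
  · intro x hx
    refine Real.smoothTransition.zero_of_nonpos ?_
    have h5 := (abs_le.1 (he x)).1
    have h6 : 3 / 4 ≤ min 1 (‖x - c‖ / r) := by
      refine le_min (by norm_num) ?_
      rw [le_div_iff₀ hr]
      exact hx
    linarith

end Pool.Agent.Helper94.UP
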